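import Pool.Agent.Helper10.AB.GoalsF5

/-! # Project AB (MP_1ef41b_an), packet MHF: the torus modes of a holomorphic function. -/

open MeasureTheory Set Filter Topology
open scoped ContDiff

noncomputable section

namespace Pool.Agent.Helper56.AB

open Pool.Agent.Helper24.AB
open Pool.Agent.Helper15.AB (S_XI S_ATL XiI)
open Pool.Agent.Helper10.AB

theorem isOpen_strip (a : ℝ) : IsOpen (strip a) :=
  isOpen_lt (Complex.continuous_re.abs) continuous_const

theorem re_shift (w : ℂ) : (w + 2 * Real.pi * Complex.I).re = w.re := by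
  simp

theorem mem_YS_zero {a : ℝ} {w : ℂ} (hw : w ∈ strip a) : ((w, 0) : YY) ∈ YS a (strip a) := by
  refine ⟨hw, ?_⟩
  have h1 := abs_lt.1 (show |w.re| < a from hw)
  change (0 : ℝ) ^ 2 + (0 : ℝ) ^ 2 + (0 : ℝ) ^ 2 < a ^ 2 - w.re ^ 2
  nlinarith [h1.1, h1.2]

theorem mhf : S_MHF := by
  intro _ hE hT h2 h3 a A δ₀ ρ₀ s p B hD h hh hG
  obtain ⟨e1, e2, e3, -, e5, -, -, e8, -⟩ := hE a A δ₀ ρ₀ s p B hD
  have hPz : ∀ (y : YY) θ, Pt a A s p y θ = Pz (XX a A s p y) θ y.1 := e8
  have hGw : ∀ y ∈ YS a (strip a), XX a A s p y ∈ Gw a A s p y.1 := by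
    intro y hy
    have h1 := (e5 y 0).2 hy
    rw [hPz] at h1
    exact h1
  have hmd : ∀ J (y : YY), md a A s p h J y =
      mh h J (XX a A s p y) y.1 * (Real.exp (Jd J (XX a A s p y)) : ℂ) := by
    intro J y
    have h1 : md a A s p h J y = tm J (fun θ => h (Pz (XX a A s p y) θ y.1)) := by
      unfold md
      simp only [hPz]
    rw [h1, mh, mul_assoc, mul_comm (tm J _) (Real.exp (Jd J (XX a A s p y)) : ℂ), ← mul_assoc,
      ← Complex.ofReal_mul, ← Real.exp_add, neg_add_cancel, Real.exp_zero, Complex.ofReal_one,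
      one_mul]
  have hmd' : ∀ J, ∀ y ∈ YS a (strip a), md a A s p h J y =
      mh h J (XX a A s p (y.1, 0)) y.1 * (Real.exp (Jd J (XX a A s p y)) : ℂ) := by
    intro J y hy
    rw [hmd, h2 a A δ₀ ρ₀ s p B hD h hh hG J y.1 (XX a A s p y) (XX a A s p (y.1, 0)) hy.1
      (hGw y hy) (hGw (y.1, 0) (mem_YS_zero hy.1))]
  have hper : ∀ y ∈ YS a (strip a), CPer (fun θ => h (Pt a A s p y θ)) := by
    intro y hy
    constructor
    · have h10 : Continuous (fun θ => Pt a A s p y θ) := by
        simp only [hPz]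
        unfold Pz
        refine continuous_pi fun i => ?_
        have hc : ∀ (x : ℝ) (j : Fin 3), Continuous (fun θ : Fin 3 → ℝ => (⟨x, θ j⟩ : ℂ)) := by
          intro x j
          have h4 : (fun θ : Fin 3 → ℝ => (⟨x, θ j⟩ : ℂ)) =
              fun θ => (x : ℂ) + (θ j : ℂ) * Complex.I := by
            funext θ
            apply Complex.ext <;> simp
          rw [h4]
          fun_prop
        fin_cases i
        · exact hc _ 0
        · exact hc _ 1
        · exact hc _ 2
        · exact continuous_const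
      exact hh.continuousOn.comp_continuous h10 (fun θ => (e5 y θ).2 hy)
    · intro θ k
      change h (Pt a A s p y (tr2 θ k)) = h (Pt a A s p y θ)
      rw [← e2]
      exact (hG _ ((e5 y θ).2 hy)).2 k
  refine ⟨fun J w => mh h J (XX a A s p (w, 0)) w, ?_, ?_, ?_⟩
  · intro J w₀ hw₀
    obtain ⟨h4, h5⟩ := h3 a A δ₀ ρ₀ s p B hD h hh hG J w₀ (XX a A s p (w₀, 0)) hw₀
      (hGw (w₀, 0) (mem_YS_zero hw₀))
    refine (h5.congr_of_eventuallyEq ?_).differentiableWithinAt
    filter_upwards [h4, (isOpen_strip a).mem_nhds hw₀] with w hw hws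
    exact h2 a A δ₀ ρ₀ s p B hD h hh hG J w _ _ hws (hGw (w, 0) (mem_YS_zero hws)) hw
  · intro J w hw
    have hw' : w + 2 * Real.pi * Complex.I ∈ strip a := by
      change |(w + 2 * Real.pi * Complex.I).re| < a
      rw [re_shift]
      exact hw
    have hy := mem_YS_zero hw
    have hy' := mem_YS_zero hw'
    have h6 := hT (fun θ => h (Pt a A s p (w, 0) θ))
      (fun θ => h (Pt a A s p (w + 2 * Real.pi * Complex.I, 0) θ)) (hper _ hy) (hper _ hy')
      (fun θ => by
        have h7 := e1 (w, 0) θ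
        change h (Pt a A s p (w + 2 * Real.pi * Complex.I, 0) (Q3 θ)) = h (Pt a A s p (w, 0) θ)
        rw [← h7]
        exact (hG _ ((e5 (w, 0) θ).2 hy)).1) J
    have h8 : md a A s p h J (w + 2 * Real.pi * Complex.I, 0) = md a A s p h (Jn J) (w, 0) := h6
    rw [hmd' J _ hy', hmd' (Jn J) _ hy] at h8
    have h9 := e3 J (w, 0)
    simp only at h8 h9
    rw [h9] at h8
    exact mul_right_cancel₀ (Complex.ofReal_ne_zero.2 (Real.exp_ne_zero _)) h8
  · intro J y hy
    exact hmd' J y hy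

end Pool.Agent.Helper56.AB
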