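import Pool.Agent.Helper10.AB.GoalsF2

/-! # Project AB (MP_1ef41b_an), packet PHC: continuity of `Φ_J`. -/

open MeasureTheory Set Filter Topology
open scoped ContDiff

noncomputable section

namespace Pool.Agent.Helper56.AB

open Pool.Agent.Helper24.AB
open Pool.Agent.Helper15.AB (S_ATL)
open Pool.Agent.Helper10.AB

theorem fy_cont : Continuous fy := by
  unfold fy
  refine intervalIntegral.continuous_parametric_intervalIntegral_of_continuous'
    (f := fun y τ => (1 - τ ^ 2) * Real.exp (y * τ)) ?_ (-1) 1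
  unfold Function.uncurry
  fun_prop

theorem fy_pos (y : ℝ) : 0 < fy y := by
  unfold fy
  refine intervalIntegral.intervalIntegral_pos_of_pos_on ?_ ?_ (by norm_num)
  · apply Continuous.intervalIntegrable
    fun_prop
  · intro x hx
    have h1 : x ^ 2 < 1 := by
      have := hx.1
      have := hx.2
      nlinarith
    have h2 := Real.exp_pos (y * x)
    have h3 : 0 < 1 - x ^ 2 := by linarith
    positivity

/-- the `t`-independent case -/
theorem phiJ_zero (a A : ℝ) (s : ℝ → ℝ) (p : ℂ → ℝ) (J : Fin 3 → ℤ) (h0 : J 0 = 0) (h1 : J 1 = 0)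
    (w : ℂ) : PhiJ a A s p J w = - Real.log (s w.re) / 2 - Real.log (a ^ 2 - w.re ^ 2) / 2 -
      Real.log (fy (2 * Real.sqrt (4 * A ^ 2 * (a ^ 2 - w.re ^ 2) * (J 2 : ℝ) ^ 2))) / 2 -
      Real.log (4 * Real.sqrt 5 * Real.pi * A ^ 2) / 2 := by
  have ha : alp J = 0 := by simp [alp, h0, h1]
  have hb : alp' J = 0 := by simp [alp', h0, h1]
  unfold PhiJ Phi Phi0 Ff uf gf vf
  rw [ha, hb]
  simp
  ring

theorem phc : S_ATL → S_PHI2 → S_WW → S_PHC := by
  intro _ hP hW a A δ₀ ρ₀ s p B hD
  refine ⟨?_, ?_⟩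
  · intro J
    by_cases hJ : J 0 ≠ 0 ∨ J 1 ≠ 0
    · have hα : alp J ≠ 0 := (hW.2.2.2.2.1 J hJ).1
      exact (hP a A δ₀ ρ₀ s p B hD.prof hD.pot hD.small (alp J) (alp' J) (J 2) hα).2.1.continuousOn
    · push Not at hJ
      have hEq : ∀ w ∈ strip a, PhiJ a A s p J w = - Real.log (s w.re) / 2 -
          Real.log (a ^ 2 - w.re ^ 2) / 2 -
          Real.log (fy (2 * Real.sqrt (4 * A ^ 2 * (a ^ 2 - w.re ^ 2) * (J 2 : ℝ) ^ 2))) / 2 -
          Real.log (4 * Real.sqrt 5 * Real.pi * A ^ 2) / 2 :=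
        fun w _ => phiJ_zero a A s p J hJ.1 hJ.2 w
      refine ContinuousOn.congr ?_ hEq
      have hre : ContinuousOn (fun w : ℂ => w.re) (strip a) := Complex.continuous_re.continuousOn
      have hmaps : MapsTo (fun w : ℂ => w.re) (strip a) (Ioo (-a) a) := by
        intro w hw
        exact abs_lt.mp hw
      have hs : ContinuousOn (fun w : ℂ => s w.re) (strip a) :=
        hD.prof.smooth.continuousOn.comp hre hmaps
      have hls : ContinuousOn (fun w : ℂ => Real.log (s w.re)) (strip a) :=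
        hs.log (fun w hw => (hD.prof.pos _ (hmaps hw)).ne')
      have hle : ContinuousOn (fun w : ℂ => Real.log (a ^ 2 - w.re ^ 2)) (strip a) := by
        refine ContinuousOn.log (by fun_prop) ?_
        intro w hw
        have h1 := (hmaps hw).1
        have h2 := (hmaps hw).2
        simp only at h1 h2
        have : 0 < a ^ 2 - w.re ^ 2 := by nlinarith
        exact this.ne'
      have hlf : ContinuousOn (fun w : ℂ =>
          Real.log (fy (2 * Real.sqrt (4 * A ^ 2 * (a ^ 2 - w.re ^ 2) * (J 2 : ℝ) ^ 2)))) (strip a) := by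
        refine ContinuousOn.log ?_ (fun w _ => (fy_pos _).ne')
        exact (fy_cont.comp (by fun_prop)).continuousOn
      exact (((hls.neg.div_const 2).sub (hle.div_const 2)).sub (hlf.div_const 2)).sub
        continuousOn_const
  · intro J h0 h1 w
    rw [phiJ_zero a A s p J h0 h1 w, phiJ_zero a A s p J h0 h1 (w.re : ℂ)]
    simp

end Pool.Agent.Helper56.AB
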