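import Pool.Agent.Helper15.AB.GoalsE

/-!
# Project AB (`MP_1ef41b_an`), packet SUPH (helper15): the support function
-/

set_option autoImplicit false

namespace Pool.Agent.Helper56.AB

open Pool.Agent.Helper24.AB Pool.Agent.Helper15.AB

/-- weighted Cauchy-Schwarz -/
lemma cs_w {w1 w2 e u v l Y m y : ℝ} (h1 : 0 < w1) (h2 : 0 < w2)
    (h : Y ^ 2 / w1 + (m ^ 2 + y ^ 2) / w2 ≤ e) :
    (u * Y + v * m + l * y) ^ 2 ≤ (w1 * u ^ 2 + w2 * (v ^ 2 + l ^ 2)) * e := by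
  have h3 : w2 * Y ^ 2 + w1 * (m ^ 2 + y ^ 2) ≤ w1 * w2 * e := by
    have e1 : w2 * Y ^ 2 + w1 * (m ^ 2 + y ^ 2) =
        w1 * w2 * (Y ^ 2 / w1 + (m ^ 2 + y ^ 2) / w2) := by
      field_simp
    rw [e1]
    exact mul_le_mul_of_nonneg_left h (by positivity)
  have h4 : w1 * w2 * (u * Y + v * m + l * y) ^ 2 ≤
      (w1 * u ^ 2 + w2 * (v ^ 2 + l ^ 2)) * (w2 * Y ^ 2 + w1 * (m ^ 2 + y ^ 2)) := by
    have e1 : (w1 * u ^ 2 + w2 * (v ^ 2 + l ^ 2)) * (w2 * Y ^ 2 + w1 * (m ^ 2 + y ^ 2)) -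
        w1 * w2 * (u * Y + v * m + l * y) ^ 2 =
        (w1 * u * m - w2 * v * Y) ^ 2 + (w1 * u * y - w2 * l * Y) ^ 2 +
          w1 * w2 * (v * y - l * m) ^ 2 := by ring
    have e2 : 0 ≤ (w1 * u * m - w2 * v * Y) ^ 2 + (w1 * u * y - w2 * l * Y) ^ 2 +
          w1 * w2 * (v * y - l * m) ^ 2 := by positivity
    linarith
  have h5 : (w1 * u ^ 2 + w2 * (v ^ 2 + l ^ 2)) * (w2 * Y ^ 2 + w1 * (m ^ 2 + y ^ 2)) ≤
      (w1 * u ^ 2 + w2 * (v ^ 2 + l ^ 2)) * (w1 * w2 * e) :=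
    mul_le_mul_of_nonneg_left h3 (by positivity)
  have h6 : w1 * w2 * (u * Y + v * m + l * y) ^ 2 ≤
      w1 * w2 * ((w1 * u ^ 2 + w2 * (v ^ 2 + l ^ 2)) * e) := by
    refine (h4.trans h5).trans (le_of_eq ?_)
    ring
  exact le_of_mul_le_mul_left h6 (by positivity)

/-- the linear form in terms of `y₊, y₋, y₀` -/
lemma lin_y (p : ℂ → ℝ) (α α' l : ℝ) (Q : V4) :
    α * xp Q + α' * xm Q + l * x0 Q + α * p (Q 3) =
      uf α (Q 3).im * ypf p Q + vf α' (Q 3).im * ymf Q + l * x0 Q := by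
  have h1 : Real.exp (kap * (Q 3).im) * Real.exp (-(kap * (Q 3).im)) = 1 := by
    rw [← Real.exp_add]; simp
  unfold uf vf ypf ymf
  linear_combination (-α * (xp Q + p (Q 3)) - α' * xm Q) * h1

theorem suph (hA : S_ATL) : S_SUPH := by
  intro a A s p hs
  obtain ⟨-, hpos, hmul, -⟩ := hA a A s hs
  have hA2 : 0 < 4 * A ^ 2 := by have := hs.A_pos; positivity
  have hF : ∀ (α α' l : ℝ) (w : ℂ), |w.re| < a → Ff a A s α α' l w =
      (Atl a A s w.re * uf α w.im ^ 2 + 4 * A ^ 2 * (vf α' w.im ^ 2 + l ^ 2)) *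
        (a ^ 2 - w.re ^ 2) := by
    intro α α' l w hw
    unfold Ff gf
    rw [← hmul w.re hw]
    ring
  constructor
  · intro α α' l Q hQ hr
    have h1 : (ypf p Q - A) ^ 2 / Atl a A s (Q 3).re + (ymf Q ^ 2 + x0 Q ^ 2) / (4 * A ^ 2) ≤
        a ^ 2 - (Q 3).re ^ 2 := by
      unfold rfun at hr
      linarith
    have h2 := cs_w (u := uf α (Q 3).im) (v := vf α' (Q 3).im) (l := l) (hpos (Q 3).re) hA2 h1
    rw [← hF α α' l (Q 3) hQ] at h2
    have h3 := Real.le_sqrt_of_sq_le h2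
    have h4 := lin_y p α α' l Q
    unfold H0f
    linarith
  · intro P hP hr α α' l hu hv hl
    have hAt := hpos (P 3).re
    have h1 : (ypf p P - A) ^ 2 / Atl a A s (P 3).re + (ymf P ^ 2 + x0 P ^ 2) / (4 * A ^ 2) =
        a ^ 2 - (P 3).re ^ 2 := by
      unfold rfun at hr
      linarith
    have he : 0 ≤ a ^ 2 - (P 3).re ^ 2 := by
      rw [← h1]; positivity
    have h2 : Ff a A s α α' l (P 3) = (2 * (a ^ 2 - (P 3).re ^ 2)) ^ 2 := by
      rw [hF α α' l (P 3) hP, hu, hv, hl]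
      have e1 : Atl a A s (P 3).re * (2 * (ypf p P - A) / Atl a A s (P 3).re) ^ 2 +
          4 * A ^ 2 * ((2 * ymf P / (4 * A ^ 2)) ^ 2 + (2 * x0 P / (4 * A ^ 2)) ^ 2) =
          4 * ((ypf p P - A) ^ 2 / Atl a A s (P 3).re +
            (ymf P ^ 2 + x0 P ^ 2) / (4 * A ^ 2)) := by
        have : A ≠ 0 := hs.A_pos.ne'
        field_simp
        ring
      rw [e1, h1]
      ring
    have h3 : Real.sqrt (Ff a A s α α' l (P 3)) = 2 * (a ^ 2 - (P 3).re ^ 2) := by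
      rw [h2, Real.sqrt_sq (by linarith)]
    have h4 := lin_y p α α' l P
    have h5 : uf α (P 3).im * (ypf p P - A) + vf α' (P 3).im * ymf P + l * x0 P =
        2 * (a ^ 2 - (P 3).re ^ 2) := by
      rw [hu, hv, hl, ← h1]
      have : A ≠ 0 := hs.A_pos.ne'
      field_simp
      ring
    unfold H0f
    rw [h3]
    linarith

end Pool.Agent.Helper56.AB
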