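import Pool.Agent.Helper24.AB.AN.Goals

/-! # Project AB, packet EQD: the weak equation holds against the whole domain -/

open MeasureTheory Set Filter Topology
open scoped ContDiff

noncomputable section

namespace Pool.Agent.Helper56.AB

open Pool.Agent.Helper24.AB

/-- Continuity of `v ↦ ∫ u conj v` in `L²`. -/
lemma tendsto_pair {α : Type*} [MeasurableSpace α] {μ : Measure α} {u v : α → ℂ}
    {vn : ℕ → α → ℂ} (hu : MemLp u 2 μ) (hv : MemLp v 2 μ)
    (hvn : ∀ n, AEStronglyMeasurable (vn n) μ)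
    (h : Tendsto (fun n => eLpNorm (fun w => vn n w - v w) 2 μ) atTop (𝓝 0)) :
    Tendsto (fun n => ∫ w, u w * (starRingEnd ℂ) (vn n w) ∂μ) atTop
      (𝓝 (∫ w, u w * (starRingEnd ℂ) (v w) ∂μ)) := by
  have h1 : ∀ᶠ n in atTop, eLpNorm (fun w => vn n w - v w) 2 μ < 1 :=
    h.eventually_lt_const (by norm_num)
  obtain ⟨N, hN⟩ := eventually_atTop.1 h1
  have hmem : ∀ n, MemLp (vn (n + N)) 2 μ := by
    intro n
    have h2 : MemLp (fun w => vn (n + N) w - v w) 2 μ :=
      ⟨(hvn _).sub hv.1, (hN (n + N) (by omega)).trans (by norm_num)⟩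
    have h3 := h2.add hv
    have h4 : (fun w => vn (n + N) w - v w) + v = vn (n + N) := by
      funext w
      simp
    rwa [h4] at h3
  rw [← tendsto_add_atTop_iff_nat N]
  have h' : Tendsto (fun n => eLpNorm (vn (n + N) - v) 2 μ) atTop (𝓝 0) :=
    (tendsto_add_atTop_iff_nat (f := fun n => eLpNorm (fun w => vn n w - v w) 2 μ) N).2 h
  have h5 := (Lp.tendsto_Lp_iff_tendsto_eLpNorm'' (fun n => vn (n + N)) hmem v hv).2 h'
  have h6 := h5.inner (tendsto_const_nhds (x := hu.toLp u) (f := atTop)) (𝕜 := ℂ)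
  have h7 : ∀ (g : α → ℂ) (hg : MemLp g 2 μ), inner ℂ (hg.toLp g) (hu.toLp u) =
      ∫ w, u w * (starRingEnd ℂ) (g w) ∂μ := by
    intro g hg
    rw [L2.inner_def]
    refine integral_congr_ae ?_
    filter_upwards [hg.coeFn_toLp, hu.coeFn_toLp] with w e1 e2
    rw [e1, e2, RCLike.inner_apply]
  rw [h7 v hv] at h6
  refine h6.congr fun n => ?_
  rw [h7 _ (hmem n)]

lemma isOpen_strip (a : ℝ) : IsOpen (strip a) :=
  isOpen_lt (continuous_abs.comp Complex.continuous_re) continuous_const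

lemma continuousOn_Dop {a : ℝ} {Φ : ℂ → ℝ} (hΦ : ContDiffOn ℝ ∞ Φ (strip a)) {φ : ℂ → ℂ}
    (hφ : ContDiff ℝ ∞ φ) : ContinuousOn (Dop Φ φ) (strip a) := by
  have h1 : Continuous (fderiv ℝ φ) := hφ.continuous_fderiv (by simp)
  have h2 : ContDiffOn ℝ ∞ (fun w => (Φ w : ℂ)) (strip a) :=
    Complex.ofRealCLM.contDiff.comp_contDiffOn hΦ
  have h3 : ContinuousOn (fderiv ℝ (fun w => (Φ w : ℂ))) (strip a) :=
    h2.continuousOn_fderiv_of_isOpen (isOpen_strip a) (by simp)
  have h4 : ContinuousOn φ (strip a) := hφ.continuous.continuousOn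
  have h5 : ContinuousOn (fderiv ℝ φ) (strip a) := h1.continuousOn
  unfold Dop dz dS dT
  fun_prop

theorem eqd : S_EQD := by
  intro a Φ y Xa Xb _ hΦ hy hXa hXb hE z' y' hD
  obtain ⟨hz', hy', φ, hφ, h1, h2⟩ := hD
  have m1 : ∀ n, AEStronglyMeasurable (φ n) (muS a) := fun n =>
    (hφ n).1.continuous.aestronglyMeasurable
  have m2 : ∀ n, AEStronglyMeasurable (Dop Φ (φ n)) (muS a) := fun n =>
    (continuousOn_Dop hΦ (hφ n).1).aestronglyMeasurable (isOpen_strip a).measurableSet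
  have t1 := tendsto_pair hy hy' m2 h2
  have t2 := tendsto_pair hXa hz' m1 h1
  have t3 := tendsto_pair hXb hy' m2 h2
  refine tendsto_nhds_unique t1 ((t2.add t3).congr fun n => ?_)
  exact (hE (φ n) (hφ n)).symm

end Pool.Agent.Helper56.AB
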