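import Pool.Agent.Helper27.AB.PH3.Goals

/-! # Project AB (MP_1ef41b_an), module PH3, packet SMP: `Φ` is smooth on the strip. -/

open MeasureTheory Set Filter Topology
open scoped ContDiff

noncomputable section

namespace Pool.Agent.Helper56.AB

open Pool.Agent.Helper24.AB Pool.Agent.Helper15.AB Pool.Agent.Helper27.AB

theorem smp : S_TEX → S_QF → S_SMP := by
  intro hTEX hQF a A δ₀ ρ₀ s p B hs hp α α' l hα
  have hfy := hQF.1
  have hfpos := hQF.2.1
  have hre : ContDiff ℝ ∞ (fun w : ℂ => w.re) := Complex.reCLM.contDiff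
  have him : ContDiff ℝ ∞ (fun w : ℂ => w.im) := Complex.imCLM.contDiff
  have hmaps : MapsTo (fun w : ℂ => w.re) (strip a) (Ioo (-a) a) := fun w hw => abs_lt.1 hw
  have hsr : ContDiffOn ℝ ∞ (fun w : ℂ => s w.re) (strip a) :=
    hs.smooth.comp hre.contDiffOn hmaps
  have hu : ContDiff ℝ ∞ (fun w : ℂ => uf α w.im) := by
    unfold uf
    exact contDiff_const.mul (contDiff_const.mul him).exp
  have hv : ContDiff ℝ ∞ (fun w : ℂ => vf α' w.im) := by
    unfold vf
    exact contDiff_const.mul (contDiff_const.mul him).neg.exp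
  have he : ContDiff ℝ ∞ (fun w : ℂ => a ^ 2 - w.re ^ 2) := contDiff_const.sub (hre.pow 2)
  have hepos : ∀ w ∈ strip a, 0 < a ^ 2 - w.re ^ 2 := by
    intro w hw
    have h1 := (hmaps hw).1
    have h2 := (hmaps hw).2
    simp only at h1 h2
    nlinarith
  have hF : ContDiffOn ℝ ∞ (Ff a A s α α' l) (strip a) := by
    have h1 : ContDiffOn ℝ ∞ (fun w : ℂ => s w.re ^ 2 * uf α w.im ^ 2 +
        4 * A ^ 2 * (a ^ 2 - w.re ^ 2) * (vf α' w.im ^ 2 + l ^ 2)) (strip a) :=
      ((hsr.pow 2).mul (hu.pow 2).contDiffOn).add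
        ((contDiff_const.mul he).mul ((hv.pow 2).add contDiff_const)).contDiffOn
    exact h1
  have hFpos : ∀ w ∈ strip a, 0 < Ff a A s α α' l w := fun w hw =>
    (hTEX a A s hs α α' l (Or.inl hα) w hw).1
  have hsq : ContDiffOn ℝ ∞ (fun w => Real.sqrt (Ff a A s α α' l w)) (strip a) :=
    hF.sqrt (fun w hw => (hFpos w hw).ne')
  have h1 : ContDiffOn ℝ ∞ (fun w => Real.log (fy (2 * Real.sqrt (Ff a A s α α' l w))))
      (strip a) :=
    (hfy.comp_contDiffOn (contDiffOn_const.mul hsq)).log (fun w _ => (hfpos _).ne')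
  have h2 : ContDiffOn ℝ ∞ (fun w : ℂ => Real.log (s w.re)) (strip a) :=
    hsr.log (fun w hw => (hs.pos _ (hmaps hw)).ne')
  have h3 : ContDiffOn ℝ ∞ (fun w : ℂ => Real.log (a ^ 2 - w.re ^ 2)) (strip a) :=
    he.contDiffOn.log (fun w hw => (hepos w hw).ne')
  have h4 : ContDiffOn ℝ ∞ p (strip a) := by
    refine hp.smooth.mono fun w hw => ?_
    have h5 : |w.re| < a := hw
    have h6 := hs.a_pos
    change |w.re| < 3 * a / 2
    linarith
  have h7 : ContDiffOn ℝ ∞ (fun w => α * p w + (-(A * uf α w.im) - Real.log (s w.re) / 2 -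
      Real.log (a ^ 2 - w.re ^ 2) / 2 -
      Real.log (fy (2 * Real.sqrt (Ff a A s α α' l w))) / 2 -
      Real.log (4 * Real.sqrt 5 * Real.pi * A ^ 2) / 2)) (strip a) :=
    (contDiffOn_const.mul h4).add (((((contDiff_const.mul hu).neg.contDiffOn).sub
      (h2.div_const 2)).sub (h3.div_const 2)).sub (h1.div_const 2) |>.sub contDiffOn_const)
  exact h7

end Pool.Agent.Helper56.AB
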